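import Pool.Agent.MNE.StmtsA

/-!
# MP_d2d93c_nt, Theorem E, row CLI (helper44)
-/

set_option autoImplicit false

namespace Pool.Agent.MNE.H44

open Finset

theorem cli (pin : Pool.Agent.SHP.PinStmt) : Pool.Agent.MNE.CliStmt := by
  intro b1 b2 s m n z k hb1 hb2 hs hsum hcop hnm hk hkn hkz hdvd
  have hs2 : 0 < s ^ 2 := pow_pos hs 2
  have hbne : (-(s ^ 2) : ℤ) ≠ 0 := neg_ne_zero.mpr (ne_of_gt hs2)
  obtain ⟨P, Q, hne, ⟨K, hK⟩, hP, hQ, -⟩ := pin n k hk hkn b1 (-(s ^ 2)) hb1 hbne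
    1 ((-1) ^ (n + 1) * b1 ^ (m - n)) (Or.inl one_ne_zero)
  -- the integer `I`
  set I : ℤ := Q * ((-1) ^ (n + 1) * b1 ^ (m - n)) - P * 1 with hI
  have hMb : b1 + -(s ^ 2) = -b2 := by linarith [hsum]
  have hpow : (-(s ^ 2)) ^ (2 * k) = s ^ (4 * k) := by
    rw [pow_mul, neg_sq, ← pow_mul, ← pow_mul]
    ring_nf
  rw [hMb, hpow] at hK
  have hd4 : s ^ (4 * k) ∣ b1 ^ m + b2 ^ n := (pow_dvd_pow s hkz).trans hdvd
  have hsplit : b1 ^ m = b1 ^ n * b1 ^ (m - n) := by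
    rw [← pow_add]
    congr 1
    omega
  have hneg : (-b2) ^ n = (-1) ^ n * b2 ^ n := neg_pow b2 n
  have hdI : s ^ (4 * k) ∣ b1 ^ n * I := by
    have e : b1 ^ n * I = s ^ (4 * k) * K - Q * (-1) ^ n * (b1 ^ m + b2 ^ n) := by
      rw [← hK, hI, hneg, hsplit]
      ring
    rw [e]
    exact dvd_sub (dvd_mul_right _ _) (hd4.mul_left _)
  have hcop' : IsCoprime (s ^ (4 * k)) (b1 ^ n) := hcop.pow
  have hdI' : s ^ (4 * k) ∣ I := hcop'.dvd_of_dvd_mul_left hdI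
  have hle : s ^ (4 * k) ≤ |I| := by
    have h1 : s ^ (4 * k) ∣ |I| := (dvd_abs _ _).mpr hdI'
    exact Int.le_of_dvd (abs_pos.mpr hne) h1
  -- the real bounds
  have hb1R : (0 : ℝ) < b1 := by exact_mod_cast hb1
  have hsR : (0 : ℝ) < s := by exact_mod_cast hs
  have hs2R : (0 : ℝ) < (s : ℝ) ^ 2 := by positivity
  have hb1s : (b1 : ℝ) ≤ (s : ℝ) ^ 2 := by
    have : b1 ≤ s ^ 2 := by linarith [hsum, hb2]
    exact_mod_cast this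
  have hρ : (1 : ℝ) ≤ (s : ℝ) ^ 2 / b1 := by
    rw [le_div_iff₀ hb1R, one_mul]
    exact hb1s
  have habs : |(((-(s ^ 2) : ℤ)) : ℝ)| = (s : ℝ) ^ 2 := by
    push_cast
    rw [abs_neg, abs_of_pos hs2R]
  have hden : (b1 : ℝ) * ((s : ℝ) ^ 2 / b1) = (s : ℝ) ^ 2 := by
    field_simp
  have hval : (4 : ℝ) ^ k * (b1 : ℝ) ^ k * ((s : ℝ) ^ 2 / b1) ^ k *
      (1 + |(((-(s ^ 2) : ℤ)) : ℝ)| / (b1 * ((s : ℝ) ^ 2 / b1))) ^ (n + k)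
      = (s : ℝ) ^ (2 * k) * (8 ^ k * 2 ^ n) := by
    rw [habs, hden, div_self (ne_of_gt hs2R)]
    have h1 : (b1 : ℝ) ^ k * ((s : ℝ) ^ 2 / b1) ^ k = (s : ℝ) ^ (2 * k) := by
      rw [← mul_pow, hden, ← pow_mul]
    have h2 : (8 : ℝ) ^ k = 4 ^ k * 2 ^ k := by
      rw [← mul_pow]
      norm_num
    rw [mul_assoc ((4 : ℝ) ^ k), h1, h2, pow_add]
    norm_num
    ring
  have hP' : |(P : ℝ)| ≤ (s : ℝ) ^ (2 * k) * (8 ^ k * 2 ^ n) := hval ▸ hP _ hρ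
  have hQ' : |(Q : ℝ)| ≤ (s : ℝ) ^ (2 * k) * (8 ^ k * 2 ^ n) := hval ▸ hQ _ hρ
  have hB1 : (1 : ℝ) ≤ (b1 : ℝ) ^ (m - n) := by
    apply one_le_pow₀
    exact_mod_cast hb1
  have hIR : |(I : ℝ)| ≤ 2 * (b1 : ℝ) ^ (m - n) * ((s : ℝ) ^ (2 * k) * (8 ^ k * 2 ^ n)) := by
    have e : (I : ℝ) = (Q : ℝ) * ((-1) ^ (n + 1) * (b1 : ℝ) ^ (m - n)) - P := by
      rw [hI]
      push_cast
      ring
    rw [e]
    have h1 : |(Q : ℝ) * ((-1) ^ (n + 1) * (b1 : ℝ) ^ (m - n))| = |(Q : ℝ)| * (b1 : ℝ) ^ (m - n) := by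
      rw [abs_mul, abs_mul, abs_pow, abs_neg, abs_one, one_pow, one_mul,
        abs_of_pos (pow_pos hb1R _)]
    have h2 := abs_sub ((Q : ℝ) * ((-1) ^ (n + 1) * (b1 : ℝ) ^ (m - n))) (P : ℝ)
    rw [h1] at h2
    have hX : (0 : ℝ) ≤ (s : ℝ) ^ (2 * k) * (8 ^ k * 2 ^ n) := by positivity
    have h3 : |(Q : ℝ)| * (b1 : ℝ) ^ (m - n)
        ≤ ((s : ℝ) ^ (2 * k) * (8 ^ k * 2 ^ n)) * (b1 : ℝ) ^ (m - n) :=
      mul_le_mul_of_nonneg_right hQ' (by positivity)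
    have h4 : |(P : ℝ)| ≤ ((s : ℝ) ^ (2 * k) * (8 ^ k * 2 ^ n)) * (b1 : ℝ) ^ (m - n) := by
      calc |(P : ℝ)| ≤ (s : ℝ) ^ (2 * k) * (8 ^ k * 2 ^ n) := hP'
        _ = ((s : ℝ) ^ (2 * k) * (8 ^ k * 2 ^ n)) * 1 := by ring
        _ ≤ _ := mul_le_mul_of_nonneg_left hB1 hX
    linarith [h2, h3, h4]
  have hleR : (s : ℝ) ^ (4 * k) ≤ |(I : ℝ)| := by
    exact_mod_cast hle
  have hfin : (s : ℝ) ^ (2 * k) * (s : ℝ) ^ (2 * k)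
      ≤ (s : ℝ) ^ (2 * k) * (2 * (b1 : ℝ) ^ (m - n) * 8 ^ k * 2 ^ n) := by
    calc (s : ℝ) ^ (2 * k) * (s : ℝ) ^ (2 * k) = (s : ℝ) ^ (4 * k) := by
          rw [← pow_add]
          congr 1
          omega
      _ ≤ _ := hleR
      _ ≤ _ := hIR
      _ = _ := by ring
  have hfin' := le_of_mul_le_mul_left hfin (by positivity)
  exact_mod_cast hfin'

end Pool.Agent.MNE.H44
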