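import Pool.Agent.MNE.StmtsA

/-!
# MP_d2d93c_nt, Theorem E, row RG1 (helper44)
-/

set_option autoImplicit false

namespace Pool.Agent.MNE.H44

open Finset

theorem rg1_aux (cli : Pool.Agent.MNE.CliStmt) (b1 b2 s C A m n z : ℕ) (hC : 2 ≤ C)
    (h1 : 0 < b1) (h2 : 0 < b2) (hs : 2 ^ 36 ≤ s) (hsum : b1 + b2 = s ^ 2)
    (hcop : Nat.Coprime s b1) (hnm : n < m) (hm : 100 ≤ m) (hb1 : C ^ 15 ≤ b1 ^ 16)
    (hb2 : b2 ≤ C) (hA : A < C) (hz : b1 ^ m < A ^ z) (hdvd : s ^ z ∣ b1 ^ m + b2 ^ n) :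
    (b2 ^ n) ^ 50 ≤ (b1 ^ m) ^ 43 := by
  by_contra hcon
  have hcon' : (b1 ^ m) ^ 43 < (b2 ^ n) ^ 50 := not_le.mp hcon
  have step1 : 645 * m < 800 * n := by
    have e1 : C ^ (645 * m) < C ^ (800 * n) := by
      calc C ^ (645 * m) = (C ^ 15) ^ (43 * m) := by
            rw [← pow_mul]
            congr 1
            ring
        _ ≤ (b1 ^ 16) ^ (43 * m) := Nat.pow_le_pow_left hb1 _
        _ = ((b1 ^ m) ^ 43) ^ 16 := by
            rw [← pow_mul, ← pow_mul, ← pow_mul]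
            congr 1
            ring
        _ < ((b2 ^ n) ^ 50) ^ 16 := Nat.pow_lt_pow_left hcon' (by norm_num)
        _ ≤ ((C ^ n) ^ 50) ^ 16 :=
            Nat.pow_le_pow_left (Nat.pow_le_pow_left (Nat.pow_le_pow_left hb2 _) _) _
        _ = C ^ (800 * n) := by
            rw [← pow_mul, ← pow_mul]
            congr 1
            ring
    exact (Nat.pow_lt_pow_iff_right (by omega)).mp e1
  have step2 : 15 * m < 16 * z := by
    have e1 : C ^ (15 * m) < C ^ (16 * z) := by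
      calc C ^ (15 * m) = (C ^ 15) ^ m := by rw [← pow_mul]
        _ ≤ (b1 ^ 16) ^ m := Nat.pow_le_pow_left hb1 _
        _ = (b1 ^ m) ^ 16 := by
            rw [← pow_mul, ← pow_mul]
            congr 1
            ring
        _ < (A ^ z) ^ 16 := Nat.pow_lt_pow_left hz (by norm_num)
        _ ≤ (C ^ z) ^ 16 := Nat.pow_le_pow_left (Nat.pow_le_pow_left hA.le _) _
        _ = C ^ (16 * z) := by
            rw [← pow_mul]
            congr 1
            ring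
    exact (Nat.pow_lt_pow_iff_right (by omega)).mp e1
  obtain ⟨k, hk⟩ : ∃ k : ℕ, k = 23 * m / 100 := ⟨_, rfl⟩
  have hk1 : 100 * k ≤ 23 * m := by omega
  have hk2 : 23 * m ≤ 100 * k + 99 := by omega
  have hcli := cli (b1 : ℤ) (b2 : ℤ) (s : ℤ) m n z k (by exact_mod_cast h1)
    (by exact_mod_cast h2) (by
      have : 0 < s := lt_of_lt_of_le (by norm_num) hs
      exact_mod_cast this) (by exact_mod_cast hsum)
    (Nat.isCoprime_iff_coprime.mpr hcop) hnm (by omega) (by omega) (by omega)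
    (by exact_mod_cast hdvd)
  have hcliN : s ^ (2 * k) ≤ 2 * b1 ^ (m - n) * 8 ^ k * 2 ^ n := by exact_mod_cast hcli
  have hb1s : b1 ≤ s ^ 2 := by omega
  have hs0 : 0 < s := lt_of_lt_of_le (by norm_num) hs
  have hDle : 2 * k = 2 * (m - n) + (2 * k - 2 * (m - n)) := by omega
  have e2 : s ^ (2 * (m - n)) * s ^ (2 * k - 2 * (m - n))
      ≤ s ^ (2 * (m - n)) * 2 ^ (1 + 3 * k + n) := by
    calc s ^ (2 * (m - n)) * s ^ (2 * k - 2 * (m - n)) = s ^ (2 * k) := by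
          rw [← pow_add, ← hDle]
      _ ≤ 2 * b1 ^ (m - n) * 8 ^ k * 2 ^ n := hcliN
      _ ≤ 2 * (s ^ 2) ^ (m - n) * 8 ^ k * 2 ^ n := by
          have := Nat.pow_le_pow_left hb1s (m - n)
          exact Nat.mul_le_mul_right _ (Nat.mul_le_mul_right _ (Nat.mul_le_mul_left _ this))
      _ = s ^ (2 * (m - n)) * 2 ^ (1 + 3 * k + n) := by
          rw [← pow_mul, pow_add 2 (1 + 3 * k) n, pow_add 2 1 (3 * k), pow_mul 2 3 k]
          norm_num
          ring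
  have e3 : s ^ (2 * k - 2 * (m - n)) ≤ 2 ^ (1 + 3 * k + n) :=
    Nat.le_of_mul_le_mul_left e2 (pow_pos hs0 _)
  have e4 : 2 ^ (36 * (2 * k - 2 * (m - n))) ≤ 2 ^ (1 + 3 * k + n) := by
    calc 2 ^ (36 * (2 * k - 2 * (m - n))) = (2 ^ 36) ^ (2 * k - 2 * (m - n)) := by
          rw [← pow_mul]
      _ ≤ s ^ (2 * k - 2 * (m - n)) := Nat.pow_le_pow_left hs _
      _ ≤ _ := e3
  have e5 : 36 * (2 * k - 2 * (m - n)) ≤ 1 + 3 * k + n :=
    (Nat.pow_le_pow_iff_right (by norm_num)).mp e4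
  omega

theorem rg1 (bas : Pool.Agent.MNE.BasStmt) (cli : Pool.Agent.MNE.CliStmt) :
    Pool.Agent.MNE.Rg1Stmt := by
  intro f g x y z hsol hf hmax hreg
  obtain ⟨hxy, hxz, hz2, hfg, h3f, hBC, hAC, hAfac, hCB, hCA, cAC, cAB, cCB, csC, csB, cfC, cfA,
    cdB⟩ := bas f g x y z hsol
  have hg := hsol.hg
  have hx := hsol.hx
  have hy := hsol.hy
  have hz := hsol.hz
  have heq := hsol.eq
  have hf0 : 0 < f := lt_of_lt_of_le (by norm_num) hf
  have hCpos : 0 < f ^ 2 + g ^ 2 := by positivity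
  have hBpos : 0 < 2 * f * g := by positivity
  have hC2 : 2 ≤ f ^ 2 + g ^ 2 := by
    have h1 : 1 ≤ f ^ 2 := Nat.one_le_iff_ne_zero.mpr (by positivity)
    have h2 : 1 ≤ g ^ 2 := Nat.one_le_iff_ne_zero.mpr (by positivity)
    omega
  have hs : 2 ^ 36 ≤ f + g := by
    have : 2 ^ 36 ≤ 10 ^ 11 := by norm_num
    omega
  have hsA : (f + g) ∣ (f ^ 2 - g ^ 2) := by
    rw [hAfac]
    exact dvd_mul_right _ _
  have hsz : (f + g) ^ z ∣ (f ^ 2 - g ^ 2) ^ z := pow_dvd_pow_of_dvd hsA z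
  have hCx : 0 < (f ^ 2 + g ^ 2) ^ x := pow_pos hCpos _
  have hBy : 0 < (2 * f * g) ^ y := pow_pos hBpos _
  constructor
  · intro hyx
    refine rg1_aux cli (f ^ 2 + g ^ 2) (2 * f * g) (f + g) (f ^ 2 + g ^ 2) (f ^ 2 - g ^ 2) x y z
      hC2 hCpos hBpos hs hCB csC hyx ?_ ?_ hBC.le hAC ?_ ?_
    · rwa [max_eq_left hyx.le] at hmax
    · exact Nat.pow_le_pow_right hCpos (by norm_num)
    · rw [← heq]
      omega
    · rw [heq]
      exact hsz
  · intro hxy'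
    refine rg1_aux cli (2 * f * g) (f ^ 2 + g ^ 2) (f + g) (f ^ 2 + g ^ 2) (f ^ 2 - g ^ 2) y x z
      hC2 hBpos hCpos hs ?_ csB hxy' ?_ hreg.le le_rfl hAC ?_ ?_
    · rw [add_comm]
      exact hCB
    · rwa [max_eq_right hxy'.le] at hmax
    · rw [← heq]
      omega
    · rw [add_comm ((2 * f * g) ^ y) ((f ^ 2 + g ^ 2) ^ x), heq]
      exact hsz

end Pool.Agent.MNE.H44
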